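import Pool.Agent.U251.LD.StmQ
import Pool.Agent.U739.LD.BLK
import Pool.Agent.U480.LB.DIV

/-!
# Project LDQ (helper251), package DIV: blocks of the increments for the divisor problem
-/

set_option autoImplicit false
set_option linter.unusedVariables false

namespace Pool.Agent.U505.LD.DIV

open Real Finset Pool.Agent.U251.LD
open Pool.Agent.U581.LB (blk rt sf)
open Pool.Agent.U97.LB (min_one min_two mem_blk)
open Pool.Agent.U480.LB (Zd Zd_nonneg gen)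
open Pool.Agent.U739.LD.BLK (cd_nonneg)

theorem cd_le' {d : ℝ} (hd : 0 < d) :
    ∃ A : ℝ, 0 < A ∧ ∀ n : ℕ, 1 ≤ n → cd n ≤ A * (n : ℝ) ^ (-(3 / 4) + d) := by
  obtain ⟨C, hC, h⟩ := Pool.Agent.Helper112.divisor_bound d hd
  refine ⟨C / (π * √2), by positivity, fun n hn => ?_⟩
  have h2 : dv n ≤ C * (n : ℝ) ^ d := h n hn
  have hn0 : (0 : ℝ) < n := by exact_mod_cast hn
  have e : (n : ℝ) ^ (-(3 / 4) + d) = (n : ℝ) ^ d * (n : ℝ) ^ (-(3 / 4) : ℝ) := by
    rw [← Real.rpow_add hn0]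
    congr 1
    ring
  unfold cd
  calc dv n / (π * √2) * (n : ℝ) ^ (-(3 / 4) : ℝ)
      ≤ (C * (n : ℝ) ^ d) / (π * √2) * (n : ℝ) ^ (-(3 / 4) : ℝ) := by gcongr
    _ = C / (π * √2) * (n : ℝ) ^ (-(3 / 4) + d) := by
        rw [e]
        ring

theorem t_DIV : S_DIV := by
  intro ε hε
  set d : ℝ := min ε (1 / 4) / 6 with hdd
  have hd : 0 < d := by rw [hdd]; positivity
  have hdε : 6 * d ≤ ε := by
    rw [hdd]
    have := min_le_left ε (1 / 4)
    linarith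
  have hd4 : d ≤ 1 / 24 := by
    rw [hdd]
    have := min_le_right ε (1 / 4)
    linarith
  obtain ⟨A, hA0, hA⟩ := cd_le' hd
  have hZ := Zd_nonneg d
  refine ⟨2 * π * A * Zd d + 2 * π ^ 2 * A ^ 2 * Zd d + 1, by positivity, ?_⟩
  intro N q h hq hh hh1
  have hq0 : 0 ≤ (q : ℝ) ^ (-(1 / 2) : ℝ) := Real.rpow_nonneg (Nat.cast_nonneg _) _
  constructor
  · have h1 : Bh N q h ≤ 2 * π * A * Zd d * (q : ℝ) ^ (-(1 / 2) : ℝ) * h ^ (1 / 2 - 4 * d) := by
      unfold Bh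
      refine gen hd hq hh (by positivity) _ fun n hn => ?_
      have h1 := (mem_blk hn).1
      have hn0 : (0 : ℝ) < n := by exact_mod_cast h1
      have hx : 0 < √(n : ℝ) * h := mul_pos (Real.sqrt_pos.2 hn0) hh
      have h2 := min_one (s := 1 / 2 - 4 * d) hx (by linarith) (by linarith)
      have h3 : (√(n : ℝ) * h) ^ (1 / 2 - 4 * d) =
          (n : ℝ) ^ (1 / 4 - 2 * d) * h ^ (1 / 2 - 4 * d) := by
        rw [Real.mul_rpow (Real.sqrt_nonneg _) hh.le, Real.sqrt_eq_rpow, ← Real.rpow_mul hn0.le]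
        congr 2
        ring
      have h4 : (n : ℝ) ^ (-(3 / 4) + d) * (n : ℝ) ^ (1 / 4 - 2 * d) =
          (n : ℝ) ^ (-(1 / 2) - d) := by
        rw [← Real.rpow_add hn0]
        congr 1
        ring
      calc cd n * min 2 (2 * π * (√n * h))
          ≤ (A * (n : ℝ) ^ (-(3 / 4) + d)) * (2 * π * (√(n : ℝ) * h) ^ (1 / 2 - 4 * d)) :=
            mul_le_mul (hA n h1) h2 (le_min (by norm_num) (by positivity)) (by positivity)
        _ = 2 * π * A * ((n : ℝ) ^ (-(3 / 4) + d) * (n : ℝ) ^ (1 / 4 - 2 * d)) *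
              h ^ (1 / 2 - 4 * d) := by
            rw [h3]
            ring
        _ = _ := by rw [h4]
    have h2 : h ^ (1 / 2 - 4 * d) ≤ h ^ (1 / 2 - ε) :=
      Real.rpow_le_rpow_of_exponent_ge hh hh1 (by linarith)
    have h0 : 0 ≤ h ^ (1 / 2 - ε) := Real.rpow_nonneg hh.le _
    calc Bh N q h ≤ 2 * π * A * Zd d * (q : ℝ) ^ (-(1 / 2) : ℝ) * h ^ (1 / 2 - 4 * d) := h1
      _ ≤ 2 * π * A * Zd d * (q : ℝ) ^ (-(1 / 2) : ℝ) * h ^ (1 / 2 - ε) :=
          mul_le_mul_of_nonneg_left h2 (by positivity)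
      _ ≤ _ := by
          refine mul_le_mul_of_nonneg_right (mul_le_mul_of_nonneg_right ?_ hq0) h0
          have : 0 ≤ 2 * π ^ 2 * A ^ 2 * Zd d := by positivity
          linarith
  · have h1 : Vh N q h ≤ 2 * π ^ 2 * A ^ 2 * Zd d * (q : ℝ) ^ (-(1 / 2) : ℝ) * h ^ (2 - 6 * d) := by
      unfold Vh
      refine gen hd hq hh (by positivity) _ fun n hn => ?_
      have h1 := (mem_blk hn).1
      have hn0 : (0 : ℝ) < n := by exact_mod_cast h1
      have hx : 0 < √(n : ℝ) * h := mul_pos (Real.sqrt_pos.2 hn0) hh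
      have h2 := min_two (s := 2 - 6 * d) hx (by linarith) (by linarith)
      have e : (√(n : ℝ) * h) ^ 2 = n * h ^ 2 := by
        rw [mul_pow, Real.sq_sqrt hn0.le]
      rw [e] at h2
      have h3 : (√(n : ℝ) * h) ^ (2 - 6 * d) = (n : ℝ) ^ (1 - 3 * d) * h ^ (2 - 6 * d) := by
        rw [Real.mul_rpow (Real.sqrt_nonneg _) hh.le, Real.sqrt_eq_rpow, ← Real.rpow_mul hn0.le]
        congr 2
        ring
      have h4 : ((n : ℝ) ^ (-(3 / 4) + d)) ^ 2 * (n : ℝ) ^ (1 - 3 * d) =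
          (n : ℝ) ^ (-(1 / 2) - d) := by
        rw [← Real.rpow_natCast, ← Real.rpow_mul hn0.le, ← Real.rpow_add hn0]
        congr 1
        push_cast
        ring
      have h5 : cd n ^ 2 ≤ (A * (n : ℝ) ^ (-(3 / 4) + d)) ^ 2 :=
        pow_le_pow_left₀ (cd_nonneg n) (hA n h1) 2
      calc cd n ^ 2 * min 2 (2 * π ^ 2 * (n * h ^ 2))
          ≤ (A * (n : ℝ) ^ (-(3 / 4) + d)) ^ 2 * (2 * π ^ 2 * (√(n : ℝ) * h) ^ (2 - 6 * d)) :=
            mul_le_mul h5 h2 (le_min (by norm_num) (by positivity)) (by positivity)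
        _ = 2 * π ^ 2 * A ^ 2 * (((n : ℝ) ^ (-(3 / 4) + d)) ^ 2 * (n : ℝ) ^ (1 - 3 * d)) *
              h ^ (2 - 6 * d) := by
            rw [h3]
            ring
        _ = _ := by rw [h4]
    have h2 : h ^ (2 - 6 * d) ≤ h ^ (2 - ε) :=
      Real.rpow_le_rpow_of_exponent_ge hh hh1 (by linarith)
    have h0 : 0 ≤ h ^ (2 - ε) := Real.rpow_nonneg hh.le _
    calc Vh N q h ≤ 2 * π ^ 2 * A ^ 2 * Zd d * (q : ℝ) ^ (-(1 / 2) : ℝ) * h ^ (2 - 6 * d) := h1
      _ ≤ 2 * π ^ 2 * A ^ 2 * Zd d * (q : ℝ) ^ (-(1 / 2) : ℝ) * h ^ (2 - ε) :=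
          mul_le_mul_of_nonneg_left h2 (by positivity)
      _ ≤ _ := by
          refine mul_le_mul_of_nonneg_right (mul_le_mul_of_nonneg_right ?_ hq0) h0
          have : 0 ≤ 2 * π * A * Zd d := by positivity
          linarith

end Pool.Agent.U505.LD.DIV
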